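import Pool.Agent.Helper8.ZW.Defs

/-!
# Theorem W: statements of the modules

Modules 10 (GREEDY), 13 (PERC), 14 (ZCNT) are those of `Helper38.ZS` (GREEDY is used with the
matrix `QQ P k` and the set `lo k K Z`).
-/

namespace Pool.Agent.Helper8.ZW

open Finset Pool.Agent.Helper38.ZS
open scoped Classical

noncomputable section

/-- 1. level selection: `∫ TT (s x) s⁻² ds = log 2 * x`, `∫ psi (s x) s⁻² ds = 40 |x|` -/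
def ST_LEVEL : Prop :=
  ∃ C0 : ℝ, 1 ≤ C0 ∧ ∀ (ι : Type) [Fintype ι] (V : Finset ι) (f ξ ω : ι → ℝ) (β : ℝ),
    0 < β → β ≤ 1 → (∀ i, 0 ≤ ω i) → (∀ i ∈ V, |ξ i| ≤ 1) →
    β * l1 f V + ∑ i ∈ Vᶜ, ω i * |f i| < ∑ i ∈ V, ξ i * f i →
    ∃ s : ℝ, 0 < s ∧ 0 < ∑ i ∈ V, |TT (s * f i)| ∧
      β / 2 * ∑ i ∈ V, |TT (s * f i)| < ∑ i ∈ V, ξ i * TT (s * f i) ∧
      β * ∑ i ∈ V, psi (s * f i) + ∑ i ∈ Vᶜ, ω i * psi (s * f i)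
        ≤ C0 * ∑ i ∈ V, |TT (s * f i)|

/-- 2. rounding of the weak coordinates (`g` is a hat vector) -/
def ST_ROUND : Prop :=
  ∀ ε : ℝ, 0 < ε → ∃ Ks : ℝ, 1 ≤ Ks ∧ ∀ (ι : Type) [Fintype ι] (P : ι → ι → ℝ) (k f : ι → ℝ)
    (A : ℝ), IsW P k → (∀ i, k i = 0 ∨ Ks ≤ k i) → ap P f = f →
    ∑ i ∈ univ.filter (fun i => 0 < k i), Real.exp (-(k i / 100)) * psi (f i) ≤ A →
    ∃ g : ι → ℝ, (∀ i, k i = 0 → g i = f i) ∧ (∀ i, 0 < k i → ∃ n : ℤ, g i = n) ∧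
      ∑ i, (og k g i - ap P (og k g) i) ^ 2 ≤ ε * A ∧
      ∑ i ∈ univ.filter (fun i => 0 < k i), Real.exp (k i / 200) * |g i| ^ (19 / 20 : ℝ) ≤ ε * A

/-- 3. the minimal partition -/
def ST_PART : Prop :=
  ∀ (ι : Type) [Fintype ι] (P : ι → ι → ℝ) (k g : ι → ℝ) (G : Finset ι) (γ κ : ℝ),
    IsW P k → 0 < γ → γ ≤ 1 → 0 < κ → (∀ i ∈ G, γ ≤ |g i|) →
    ∃ Q : Finset (Finset ι), (∀ Z ∈ Q, Z.Nonempty) ∧ (∀ Z ∈ Q, ∀ Y ∈ Q, Z ≠ Y → Disjoint Z Y) ∧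
      Q.biUnion id = G ∧ (∀ Z ∈ Q, Link (QQ P k) κ Z g) ∧
      ∑ Z ∈ Q, DD P (og k g) Z ≤ DD P (og k g) G + 40 * κ / γ * nu g G

/-- 4. a bad vector has a bad piece -/
def ST_PIECE : Prop :=
  ∀ β : ℝ, 0 < β → β ≤ 1 → ∃ C1 : ℝ, 1 ≤ C1 ∧ ∀ ε : ℝ, 0 < ε → ε ≤ 1 →
    ∃ γ κ C : ℝ, 0 < γ ∧ γ ≤ 1 ∧ 0 < κ ∧ κ ≤ 1 ∧ 1 ≤ C ∧ ∀ δ : ℝ, 0 < δ → ∃ Ks : ℝ, 1 ≤ Ks ∧
    ∀ (L : ℝ) (ι : Type) [Fintype ι] (P : ι → ι → ℝ) (k : ι → ℝ) (V : Finset ι) (f ξ : ι → ℝ),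
      1 ≤ L → IsW P k → (∀ i, k i = 0 ∨ Ks ≤ k i) → (∀ i ∈ V, k i = 0) → ap P f = f →
      (∀ i ∈ V, |ξ i| ≤ 1) →
      β * l1 f V + ∑ i ∈ Vᶜ, (if k i = 0 then L else Real.exp (-(k i / 100))) * |f i|
        < ∑ i ∈ V, ξ i * f i →
      ∃ (g : ι → ℝ) (Z : Finset ι) (m : ℝ), m = ∑ i ∈ Z ∩ V, |TT (g i)| ∧ 0 < m ∧
        β / 4 * m < ∑ i ∈ Z ∩ V, ξ i * TT (g i) ∧ (∀ i ∈ Z, γ ≤ |g i|) ∧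
        (∀ i ∈ Z, 0 < k i → ∃ n : ℤ, g i = n) ∧ Link (QQ P k) κ Z g ∧
        nu g Z ≤ C * m ∧ nu g (Z.filter (fun i => i ∉ V ∧ k i = 0)) ≤ C / L * m ∧
        ∑ i ∈ Z.filter (fun i => 0 < k i), Real.exp (k i / 200) * |g i| ^ (19 / 20 : ℝ) ≤ δ * m ∧
        DD P (og k g) Z ≤ ε * m ∧
        (#((Z ∩ V).filter (fun i => 1 / 2 ≤ |g i|)) : ℝ) ≤ C1 * m

/-- 5. pieces are large -/
def ST_BIG : Prop :=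
  ∀ C M : ℝ, 1 ≤ C → 1 ≤ M → ∃ η : ℝ, 0 < η ∧
    ∀ (ι : Type) [Fintype ι] (P : ι → ι → ℝ) (k : ι → ℝ) (V Z : Finset ι) (g : ι → ℝ) (m : ℝ),
      IsW P k → (∀ i ∈ V, k i = 0 ∧ P i i ≤ η) → m = ∑ i ∈ Z ∩ V, |TT (g i)| → 0 < m →
      nu g Z ≤ C * m → DD P (og k g) Z ≤ m / 16 → M ≤ m

/-- 6. reconstruction from a sample -/
def ST_REC : Prop :=
  ∀ β C1 : ℝ, 0 < β → β ≤ 1 → 1 ≤ C1 → ∃ ε : ℝ, 0 < ε ∧ ε ≤ 1 / 16 ∧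
    ∀ γ C : ℝ, 0 < γ → γ ≤ 1 → 1 ≤ C → ∃ K0 : ℝ, ∀ K : ℝ, K0 ≤ K →
    ∃ η L : ℝ, 0 < η ∧ 1 ≤ L ∧
    ∀ (ι : Type) [Fintype ι] (P : ι → ι → ℝ) (k : ι → ℝ) (V Z : Finset ι) (g ξ : ι → ℝ) (m : ℝ),
      IsW P k → (∀ i ∈ V, k i = 0 ∧ P i i ≤ η) → (∀ i ∈ V, |ξ i| ≤ 1) →
      m = ∑ i ∈ Z ∩ V, |TT (g i)| → 0 < m →
      β / 4 * m < ∑ i ∈ Z ∩ V, ξ i * TT (g i) → (∀ i ∈ Z, γ ≤ |g i|) →
      (∀ i ∈ Z, 0 < k i → ∃ n : ℤ, g i = n) →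
      nu g Z ≤ C * m → nu g (Z.filter (fun i => i ∉ V ∧ k i = 0)) ≤ C / L * m →
      ∑ i ∈ Z.filter (fun i => 0 < k i), Real.exp (k i / 200) * |g i| ^ (19 / 20 : ℝ)
        ≤ 1 / (8 * K ^ 100) * m →
      DD P (og k g) Z ≤ ε * m →
      (#((Z ∩ V).filter (fun i => 1 / 2 ≤ |g i|)) : ℝ) ≤ C1 * m →
      ∃ z : ι → ℤ, (∀ j, j ∉ Z → z j = 0) ∧ (∀ i ∈ Z, 0 < k i → g i = z i) ∧
        lc z ≤ m / (4 * K ^ 100) ∧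
        (#(V.filter (fun v => 1 < |fdW P k K z v|)) : ℝ) ≤ 2 * C1 * m ∧
        ∑ v ∈ V, |TT (fdW P k K z v)| ≤ 2 * m ∧
        β / 8 * m < ∑ v ∈ V, ξ v * TT (fdW P k K z v)

/-- 7. one sample detects one in 64 of the sets -/
def ST_SAMPLE : Prop :=
  ∀ γ κ C : ℝ, 0 < γ → γ ≤ 1 → 0 < κ → κ ≤ 1 → 1 ≤ C → ∃ K0 : ℝ, ∀ K : ℝ, K0 ≤ K →
    ∀ (ι : Type) [Fintype ι] (P : ι → ι → ℝ) (k : ι → ℝ) (Z : Finset ι) (g : ι → ℝ) (m : ℝ)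
      (y : ι → ℤ), IsW P k → 1 ≤ m → PieceW P k γ κ C m Z g → Rec k K Z g y →
      ∀ (J : Type) (F : Finset J) (B : J → Finset ι),
        (∀ j ∈ F, B j ⊆ lo k K Z ∧ (Real.exp (K / 8) ≤ l1 g (B j) ∨
          (l1 g (B j) < Real.exp (K / 8) ∧ κ * γ ≤ II (QQ P k) g (B j) (Z \ B j) ∧
            near (QQ P k) K (lo k K Z) g (B j) ≤ II (QQ P k) g (B j) (Z \ B j) / 8))) →
        ∃ z : ι → ℤ, (∀ j, j ∉ lo k K Z → z j = 0) ∧ lc z ≤ m * Real.exp (-(K / 9)) ∧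
          (#(visW P k K z y) : ℝ) ≤ m * Real.exp (3 * K / 2) ∧
          (#(F.filter (fun j => ¬ DetW P k K z y (B j))) : ℝ) ≤ 63 / 64 * (#F : ℝ)

/-- 8. the samples of one level -/
def ST_SAMPLES : Prop :=
  ∀ γ κ C : ℝ, 0 < γ → γ ≤ 1 → 0 < κ → κ ≤ 1 → 1 ≤ C → ∃ K0 : ℝ, ∀ K : ℝ, K0 ≤ K →
    ∀ (ι : Type) [Fintype ι] (P : ι → ι → ℝ) (k : ι → ℝ) (Z S : Finset ι) (g : ι → ℝ) (m : ℝ)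
      (y : ι → ℤ), IsW P k → 1 ≤ m → PieceW P k γ κ C m Z g → Rec k K Z g y →
      K < 3 * Real.log m → S ⊆ lo k K Z → (#S : ℝ) ≤ m / K ^ 100 →
      ∃ (z : Fin ⌈64 * K⌉₊ → ι → ℤ) (S' : Finset ι), S' ⊆ lo k K Z ∧
        (∀ i j, z i j ≠ 0 → j ∈ S') ∧
        (#S' : ℝ) ≤ m * Real.exp (-(K / 16)) ∧ ∑ i, lc (z i) ≤ m * Real.exp (-(K / 16)) ∧
        (∀ i, (#(visW P k K (z i) y) : ℝ) ≤ m * Real.exp (3 * K / 2)) ∧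
        ∀ s ∈ S, ∀ r : ℕ,
          Disjoint (ball (QQ P k) K (lo k K Z) s r)
            (S' ∪ univ.biUnion (fun i => visW P k K (z i) y)) →
          ¬ DetbW P k K Z g (ball (QQ P k) K (lo k K Z) s r)

/-- 9. packing of balls -/
def ST_PACK : Prop :=
  ∀ γ κ C : ℝ, 0 < γ → γ ≤ 1 → 0 < κ → κ ≤ 1 → 1 ≤ C → ∃ (C2 : ℝ) (R0 : ℕ), 1 ≤ C2 ∧ 1 ≤ R0 ∧
    ∀ (ι : Type) [Fintype ι] (P : ι → ι → ℝ) (k : ι → ℝ) (K : ℝ) (Z A : Finset ι) (g : ι → ℝ)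
      (m : ℝ) (R : ℕ), IsW P k → 1 ≤ m → PieceW P k γ κ C m Z g → R0 ≤ R → A ⊆ lo k K Z →
      (∀ a ∈ A, ∀ b ∈ A, a ≠ b →
        Disjoint (ball (QQ P k) K (lo k K Z) a R) (ball (QQ P k) K (lo k K Z) b R)) →
      (∀ a ∈ A, ∀ r < R, κ * (nu g (ball (QQ P k) K (lo k K Z) a r)) ^ (19 / 20 : ℝ)
          ≤ II (QQ P k) g (ball (QQ P k) K (lo k K Z) a r)
            (Z \ ball (QQ P k) K (lo k K Z) a r) ∧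
        II (QQ P k) g (ball (QQ P k) K (lo k K Z) a r) (Z \ ball (QQ P k) K (lo k K Z) a r) / 8
          < near (QQ P k) K (lo k K Z) g (ball (QQ P k) K (lo k K Z) a r)) →
      (#A : ℝ) ≤ C2 * m * (R : ℝ) ^ (-(21 / 20 : ℝ))

/-- 11. one step down the tower -/
def ST_STEP : Prop :=
  ∀ γ κ C : ℝ, 0 < γ → γ ≤ 1 → 0 < κ → κ ≤ 1 → 1 ≤ C → ∃ K0 : ℝ, ∀ K : ℝ, K0 ≤ K →
    ∀ (ι : Type) [Fintype ι] (P : ι → ι → ℝ) (k : ι → ℝ) (Z S : Finset ι) (g : ι → ℝ) (m : ℝ)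
      (y : ι → ℤ), IsW P k → 1 ≤ m → PieceW P k γ κ C m Z g → Rec k K Z g y →
      K < 3 * Real.log m → S ⊆ lo k K Z → (#S : ℝ) ≤ m / K ^ 100 →
      ∃ (z : Fin ⌈64 * K⌉₊ → ι → ℤ) (S' W : Finset ι), S' ⊆ lo k K Z ∧
        (∀ i j, z i j ≠ 0 → j ∈ S') ∧
        (#S' : ℝ) ≤ m * Real.exp (-(K / 16)) ∧ ∑ i, lc (z i) ≤ m * Real.exp (-(K / 16)) ∧
        (#(S' ∪ univ.biUnion (fun i => visW P k K (z i) y)) : ℝ) ≤ m * Real.exp (2 * K) ∧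
        S ⊆ W ∧ (#W : ℝ) ≤ m / K ^ 4 ∧
        Rooted (Adj (QQ P k) K) (S' ∪ univ.biUnion (fun i => visW P k K (z i) y)) W

/-- 12. the top of the tower -/
def ST_TOP : Prop :=
  ∀ γ κ C : ℝ, 0 < γ → γ ≤ 1 → 0 < κ → κ ≤ 1 → 1 ≤ C → ∃ K0 : ℝ, ∀ K : ℝ, K0 ≤ K →
    ∀ (ι : Type) [Fintype ι] (P : ι → ι → ℝ) (k : ι → ℝ) (Z S : Finset ι) (g : ι → ℝ) (m : ℝ)
      (o : ι), IsW P k → 1 ≤ m → PieceW P k γ κ C m Z g → 3 * Real.log m ≤ K →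
      S ⊆ lo k K Z → o ∈ Z → (#S : ℝ) ≤ m / K ^ 100 →
      hi k K Z = ∅ ∧ ∃ W : Finset ι, S ⊆ W ∧ (#W : ℝ) ≤ m / K ^ 4 ∧
        Rooted (Adj (QQ P k) K) {o} W

/-- 15. counting subsets of small rooted sets -/
def ST_SUB : Prop :=
  ∃ K0 : ℝ, ∀ K : ℝ, K0 ≤ K → ∀ (ι : Type) [Fintype ι] (P : ι → ι → ℝ) (k : ι → ℝ)
    (Q : Finset ι) (N M : ℝ) (F : Finset (Finset ι)),
    IsW P k → 0 ≤ N → (#Q : ℝ) ≤ M * Real.exp (2 * K) →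
    (∀ S ∈ F, ∃ W : Finset ι, S ⊆ W ∧ (#W : ℝ) ≤ N ∧ Rooted (Adj (QQ P k) K) Q W) →
    (#F : ℝ) ≤ Real.exp (4 * K * N + 2 * M * Real.exp (-K))

/-- 16. the number of codes -/
def ST_COUNT : Prop :=
  ∀ γ κ C : ℝ, 0 < γ → γ ≤ 1 → 0 < κ → κ ≤ 1 → 1 ≤ C → ∃ K0 : ℝ, ∀ K : ℝ, K0 ≤ K →
    ∀ (ι : Type) [Fintype ι] (P : ι → ι → ℝ) (k : ι → ℝ) (m : ℝ) (o : ι)
      (F : Finset (Finset ι × (ι → ℤ))),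
      IsW P k → 1 ≤ m → (∀ c ∈ F, SKW P k γ κ C m K o c) →
      (#F : ℝ) ≤ Real.exp (20 * m / K ^ 2)

/-- 17. the number of samples visible at `v` -/
def ST_ZC : Prop :=
  ∀ γ κ C : ℝ, 0 < γ → γ ≤ 1 → 0 < κ → κ ≤ 1 → 1 ≤ C → ∃ K0 : ℝ, ∀ K : ℝ, K0 ≤ K →
    ∃ M : ℝ, 1 ≤ M ∧ ∀ (ι : Type) [Fintype ι] (P : ι → ι → ℝ) (k : ι → ℝ) (m : ℝ) (v : ι)
      (F : Finset (ι → ℤ)), IsW P k → (∀ i, k i = 0 ∨ K < k i) → k v = 0 → M ≤ m →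
      (∀ z ∈ F, IsZW P k γ κ C m K z ∧ 1 < |fdW P k K z v|) →
      (#F : ℝ) ≤ Real.exp (25 * m / K ^ 2)

/-- 18. Theorem W: zonotope signing with weak coordinates -/
def ST_SIGN : Prop :=
  ∀ β : ℝ, 0 < β → β ≤ 1 → ∃ η L Ks : ℝ, 0 < η ∧ 1 ≤ L ∧ 1 ≤ Ks ∧
    ∀ (ι : Type) [Fintype ι] (P : ι → ι → ℝ) (k : ι → ℝ) (V : Finset ι),
      IsW P k → (∀ i, k i = 0 ∨ Ks ≤ k i) → (∀ i ∈ V, k i = 0 ∧ P i i ≤ η) →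
      ∃ ξ : ι → ℝ, (∀ i, ξ i = 1 ∨ ξ i = -1) ∧
        ∀ f : ι → ℝ, ap P f = f → ∑ i ∈ V, ξ i * f i ≤
          β * l1 f V + ∑ i ∈ Vᶜ, (if k i = 0 then L else Real.exp (-(k i / 100))) * |f i|

end

end Pool.Agent.Helper8.ZW
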