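import Pool.Agent.Helper38.ZS.Defs

/-!
# Zonotope signing with weak coordinates (Theorem W): definitions

`P` is an orthogonal projection matrix, `k i ≥ 0` the class of the coordinate `i`
(`1 - P i i ≤ exp (-3 k i)`; class `0` = no condition). HAT coordinates: `th k i * (original)`.
The definitions `nu, l1, II, Link, Adj, bd, grow, ball, near, Rooted, lc, TT` of `Helper38.ZS` are
used with the matrix `QQ P k` and hat vectors; `DD` is used with `P` and the original vector.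
-/

namespace Pool.Agent.Helper8.ZW

open Finset Pool.Agent.Helper38.ZS
open scoped Classical

noncomputable section

variable {ι : Type} [Fintype ι]

omit [Fintype ι] in
/-- hat factor -/
def th (k : ι → ℝ) (i : ι) : ℝ := Real.exp (-(k i / 50))

omit [Fintype ι] in
/-- the matrix in hat coordinates -/
def QQ (P : ι → ι → ℝ) (k : ι → ℝ) (i j : ι) : ℝ := P i j / (th k i * th k j)

omit [Fintype ι] in
/-- the original vector of a hat vector -/
def og (k g : ι → ℝ) (i : ι) : ℝ := g i / th k i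

/-- a projection with classes -/
structure IsW (P : ι → ι → ℝ) (k : ι → ℝ) : Prop where
  pr : IsPr P
  nn : ∀ i, 0 ≤ k i
  dg : ∀ i, 1 - P i i ≤ Real.exp (-(3 * k i))

omit [Fintype ι] in
/-- the vertices of class at most `K` -/
def lo (k : ι → ℝ) (K : ℝ) (Z : Finset ι) : Finset ι := Z.filter (fun i => k i ≤ K)

omit [Fintype ι] in
/-- the vertices of class greater than `K` -/
def hi (k : ι → ℝ) (K : ℝ) (Z : Finset ι) : Finset ι := Z.filter (fun i => K < k i)

/-- growth function of the level lemma -/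
def psi (x : ℝ) : ℝ := min (|x| ^ (21 / 20 : ℝ)) (|x| ^ (19 / 20 : ℝ))

/-- a piece of size `m` (`g` is the hat vector) -/
structure PieceW (P : ι → ι → ℝ) (k : ι → ℝ) (γ κ C m : ℝ) (Z : Finset ι) (g : ι → ℝ) : Prop where
  low : ∀ i ∈ Z, γ ≤ |g i|
  int : ∀ i ∈ Z, 0 < k i → ∃ n : ℤ, g i = n
  root : ∃ i ∈ Z, k i = 0
  link : Link (QQ P k) κ Z g
  nub : nu g Z ≤ C * m
  nul : m ≤ 2 * nu g Z
  dfb : DD P (og k g) Z ≤ m
  wt : ∑ i ∈ Z.filter (fun i => 0 < k i), Real.exp (k i / 200) * |g i| ^ (19 / 20 : ℝ) ≤ m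

omit [Fintype ι] in
/-- `y` records the hat values of the vertices of class greater than `K` -/
def Rec (k : ι → ℝ) (K : ℝ) (Z : Finset ι) (g : ι → ℝ) (y : ι → ℤ) : Prop :=
  (∀ i ∈ hi k K Z, g i = y i) ∧ ∀ i, i ∉ hi k K Z → y i = 0

/-- visible points: `z` is the sample of the low vertices, `y` the record of the high vertices -/
def visW (P : ι → ι → ℝ) (k : ι → ℝ) (K : ℝ) (z y : ι → ℤ) : Finset ι :=
  univ.filter (fun v => k v ≤ K ∧ Real.exp (-(K / 2)) ≤
    |ap (QQ P k) (fun j => Real.exp (K / 8) * (z j : ℝ) + (y j : ℝ)) v|)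

/-- the sample `z` detects the set `B` -/
def DetW (P : ι → ι → ℝ) (k : ι → ℝ) (K : ℝ) (z y : ι → ℤ) (B : Finset ι) : Prop :=
  ∃ j ∈ B, z j ≠ 0 ∨ j ∈ visW P k K z y

/-- sets which must be detected -/
def DetbW (P : ι → ι → ℝ) (k : ι → ℝ) (K : ℝ) (Z : Finset ι) (g : ι → ℝ) (B : Finset ι) : Prop :=
  Real.exp (K / 8) ≤ l1 g B ∨
    near (QQ P k) K (lo k K Z) g B ≤ II (QQ P k) g B (Z \ B) / 8

/-- the codes of level `K` of the pieces of size `m` containing `o` -/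
def SKW (P : ι → ι → ℝ) (k : ι → ℝ) (γ κ C m K : ℝ) (o : ι) (c : Finset ι × (ι → ℤ)) : Prop :=
  ∃ (Z : Finset ι) (g : ι → ℝ), PieceW P k γ κ C m Z g ∧ o ∈ Z ∧ c.1 ⊆ lo k K Z ∧
    (#c.1 : ℝ) ≤ m / K ^ 100 ∧ Rec k K Z g c.2

/-- possible final samples of the pieces of size `m` -/
def IsZW (P : ι → ι → ℝ) (k : ι → ℝ) (γ κ C m K : ℝ) (z : ι → ℤ) : Prop :=
  ∃ (Z : Finset ι) (g : ι → ℝ), PieceW P k γ κ C m Z g ∧ (∀ j, j ∉ Z → z j = 0) ∧
    (∀ i ∈ Z, 0 < k i → g i = z i) ∧ lc z ≤ m / (2 * K ^ 100)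

/-- the reconstructed field (original coordinates) -/
def fdW (P : ι → ι → ℝ) (k : ι → ℝ) (K : ℝ) (z : ι → ℤ) (v : ι) : ℝ :=
  ap P (fun j => (if k j = 0 then K ^ 200 else (th k j)⁻¹) * (z j : ℝ)) v

end

end Pool.Agent.Helper8.ZW
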